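import Pool.Agent.THS.StmtsT

/-! Row PIS: product of summable families. -/

namespace Pool.Agent.THS.H56

open Pool.Agent.THS

theorem pis : PisStatement := by
  intro g
  induction g with
  | zero =>
    intro f _ _
    exact (hasSum_fintype _).summable
  | succ g ih =>
    intro f h0 hs
    have h1 : Summable (fun m : Fin g → ℤ => ∏ i : Fin g, f i.succ (m i)) :=
      ih (fun i => f i.succ) (fun i n => h0 _ _) (fun i => hs _)
    have h2 : Summable (fun x : ℤ × (Fin g → ℤ) =>
        f 0 x.1 * ∏ i : Fin g, f i.succ (x.2 i)) :=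
      Summable.mul_of_nonneg (hs 0) h1 (fun n => h0 _ _)
        (fun m => Finset.prod_nonneg (fun i _ => h0 _ _))
    rw [← (Fin.consEquiv (fun _ : Fin (g + 1) => ℤ)).summable_iff]
    refine h2.congr ?_
    intro x
    simp [Function.comp, Fin.consEquiv, Fin.prod_univ_succ]

end Pool.Agent.THS.H56
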